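import Pool.Agent.H62.LR.EndG

/-!
# LR LHN: case (N), two members away from the sections and close to each other agree

* `exp_small`: `exp w = 1`, `|w| < 6` implies `w = 0`.
* `strip_bdd`: the section `L` is bounded in the strip off the discs.
* `lh_N`: `(Q₁ - 1) (Q₂ - 1) = (1 - L) (Q₃ - 1) (Q₄ - 1)`, so one of the logarithms of `Q₁`, `Q₂` vanishes at every point `b₀ + i p l`.
-/

set_option autoImplicit false

open Topology Filter Metric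

noncomputable section

namespace Pool.Agent.H62.LR

open Pool.Agent.H87.LU (Gd HP isOpen_HP HP_anti gd_notMem isClosed_gd)

variable {p : ℝ} {B : Set ℂ} {δ W : ℝ} {𝓛 : Set (ℂ → ℂ)} {C A : Set ℂ}

theorem exp_small {w : ℂ} (h : Complex.exp w = 1) (hw : ‖w‖ < 6) : w = 0 := by
  obtain ⟨n, hn⟩ := Complex.exp_eq_one_iff.1 h
  by_cases h0 : n = 0
  · rw [hn, h0]
    simp
  · exfalso
    have h1 : ‖w‖ = |(n : ℝ)| * (2 * Real.pi) := by
      rw [hn, norm_mul, norm_mul, norm_mul, Complex.norm_I, Complex.norm_real, Real.norm_of_nonneg Real.pi_pos.le, mul_one, Complex.norm_intCast]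
      norm_num
    have h2 : (1 : ℝ) ≤ |(n : ℝ)| := by exact_mod_cast Int.one_le_abs h0
    have h3 := Real.pi_gt_three
    nlinarith

/-- translation by the periods -/
theorem BaseD.gd_add' (h : BaseD p B δ W 𝓛 C A) {z : ℂ} (hz : z ∈ Gd B δ) (l : ℤ) : z + p * l * Complex.I ∈ Gd B δ := by
  intro b hb
  have h1 := hz _ (h.B_inv b hb (-l))
  have e : z - (b + p * ((-l : ℤ) : ℂ) * Complex.I) = z + p * l * Complex.I - b := by
    push_cast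
    ring
  rwa [e] at h1

theorem BaseD.L_int (h : BaseD p B δ W 𝓛 C A) {L : ℂ → ℂ} (hL : L ∈ 𝓛) (z : ℂ) (l : ℤ) : L (z + p * l * Complex.I) = L z := by
  have h1 : Function.Periodic L (p * Complex.I) := h.L_per L hL
  have h2 := h1.int_mul l z
  have e : (l : ℂ) * (p * Complex.I) = p * l * Complex.I := by ring
  rwa [e] at h2

/-- the section `L` is bounded in the strip off the discs -/
theorem strip_bdd (h : BaseD p B δ W 𝓛 C A) {L : ℂ → ℂ} (hL : L ∈ 𝓛) : ∃ K : ℝ, 0 ≤ K ∧ ∀ z ∈ Gd B δ, |z.re| ≤ W → ‖L z‖ ≤ K := by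
  have hp := h.p_pos
  have hδ := h.δ_pos
  set S : Set ℂ := Gd B δ ∩ {z : ℂ | |z.re| ≤ W ∧ 0 ≤ z.im ∧ z.im ≤ p} with hS
  have hSc : IsCompact S := by
    refine Metric.isCompact_of_isClosed_isBounded ?_ ?_
    · refine (isClosed_gd δ).inter ?_
      refine IsClosed.inter (isClosed_le (continuous_abs.comp Complex.continuous_re) continuous_const) ?_
      exact (isClosed_le continuous_const Complex.continuous_im).inter (isClosed_le Complex.continuous_im continuous_const)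
    · refine (isBounded_iff_forall_norm_le).2 ⟨W + p, fun z hz => ?_⟩
      refine (Complex.norm_le_abs_re_add_abs_im z).trans (add_le_add hz.2.1 ?_)
      rw [abs_of_nonneg hz.2.2.1]
      exact hz.2.2.2
  have hcont : ContinuousOn L S := fun z hz => (h.L_an L hL z (gd_notMem hδ hz.1)).1.continuousAt.continuousWithinAt
  obtain ⟨K, hK⟩ := hSc.exists_bound_of_continuousOn hcont
  refine ⟨max K 0, le_max_right _ _, fun z hz hzW => ?_⟩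
  set l : ℤ := -⌊z.im / p⌋ with hl
  have him : (z + p * l * Complex.I).im = z.im + p * l := by simp
  have hre : (z + p * l * Complex.I).re = z.re := by simp
  have hl' : (l : ℝ) = -(⌊z.im / p⌋ : ℝ) := by
    rw [hl]
    push_cast
    ring
  have h1 : z + p * l * Complex.I ∈ S := by
    refine ⟨h.gd_add' hz l, ?_, ?_, ?_⟩
    · rw [hre]
      exact hzW
    · rw [him, hl']
      have h2 := Int.floor_le (z.im / p)
      rw [le_div_iff₀ hp] at h2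
      linarith
    · rw [him, hl']
      have h2 := (Int.lt_floor_add_one (z.im / p)).le
      rw [div_le_iff₀ hp] at h2
      linarith
  have h2 := hK _ h1
  rw [h.L_int hL] at h2
  exact h2.trans (le_max_left _ _)

/-- the bad points with `L = 1` -/
theorem L_one (h : BaseD p B δ W 𝓛 C A) {L : ℂ → ℂ} (hL : L ∈ 𝓛) {b₀ : ℂ} (hLa : AnalyticAt ℂ L b₀) (hL1 : L b₀ = 1) (l : ℤ) :
    Tendsto (fun z => 1 - L z) (𝓝 (b₀ + p * l * Complex.I)) (𝓝 0) := by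
  have h1 : L = fun z => L (z - p * l * Complex.I) := by
    funext z
    have h2 := h.L_int hL (z - p * l * Complex.I) l
    rw [sub_add_cancel] at h2
    exact h2
  have h3 : ContinuousAt L (b₀ + p * l * Complex.I) := by
    rw [h1]
    have h4 : ContinuousAt L ((fun z : ℂ => z - p * l * Complex.I) (b₀ + p * l * Complex.I)) := by
      show ContinuousAt L (b₀ + p * l * Complex.I - p * l * Complex.I)
      rw [add_sub_cancel_right]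
      exact hLa.continuousAt
    exact ContinuousAt.comp (f := fun z : ℂ => z - p * l * Complex.I) h4 (by fun_prop)
  have h5 : Tendsto (fun z => 1 - L z) (𝓝 (b₀ + p * l * Complex.I)) (𝓝 (1 - L (b₀ + p * l * Complex.I))) := tendsto_const_nhds.sub h3
  rwa [h.L_int hL, hL1, sub_self] at h5

theorem inv_omit {w : ℂ} (h0 : w ≠ 0) (h1 : w ≠ 1) : w⁻¹ ≠ 0 ∧ w⁻¹ ≠ 1 := ⟨inv_ne_zero h0, fun h => h1 (inv_eq_one.1 h)⟩

theorem one_sub_omit {w : ℂ} (h0 : w ≠ 0) (h1 : w ≠ 1) : 1 - w ≠ 0 ∧ 1 - w ≠ 1 := by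
  refine ⟨fun h => h1 (sub_eq_zero.1 h).symm, fun h => h0 ?_⟩
  have h2 : (1 : ℂ) - w = 1 - 0 := by rw [h, sub_zero]
  exact sub_right_injective h2

/-- Case (N): two members away from the sections and close to each other agree. -/
theorem lh_N (h : BaseD p B δ W 𝓛 ∅ A) {L : ℂ → ℂ} (hL : L ∈ 𝓛) {b₀ : ℂ} (hb₀ : b₀ ∈ B) (hLa : AnalyticAt ℂ L b₀) (hL1 : L b₀ = 1) {c : ℝ} (hc : 0 < c) :
    ∃ ε : ℝ, 0 < ε ∧ ∀ σ ρ : ℝ, (σ = 1 ∨ σ = -1) → ∀ f ∈ Tm B 𝓛 ∅ A (HP σ ρ), ∀ g ∈ Tm B 𝓛 ∅ A (HP σ ρ),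
      (∀ z ∈ HP σ ρ, z ∈ Gd B δ → |z.re| ≤ W → c ≤ ‖f z‖ ∧ ‖f z‖ ≤ 1 / c ∧ c ≤ ‖f z - 1‖ ∧ c ≤ ‖f z - L z‖ ∧
        c ≤ ‖g z‖ ∧ ‖g z‖ ≤ 1 / c ∧ c ≤ ‖g z - 1‖ ∧ c ≤ ‖g z - L z‖ ∧ ‖f z - g z‖ ≤ ε) →
      ∃ ρ' : ℝ, ρ ≤ ρ' ∧ ∀ z ∈ HP σ ρ', z ∉ B → f z = g z := by
  have hδ := h.δ_pos
  have hp := h.p_pos
  obtain ⟨K, hK0, hK⟩ := strip_bdd h hL
  set ε : ℝ := min (c / 2) (c ^ 2 / (2 * (K + 1))) with hε
  have hε0 : 0 < ε := by
    rw [hε]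
    exact lt_min (by positivity) (by positivity)
  have hε1 : ε ≤ c / 2 := min_le_left _ _
  have hε2 : ε * (K + 1) ≤ c ^ 2 / 2 := by
    have h1 : ε ≤ c ^ 2 / (2 * (K + 1)) := min_le_right _ _
    rw [le_div_iff₀ (by positivity)] at h1
    linarith
  refine ⟨ε, hε0, fun σ ρ hσ f hf g hg hfg => ?_⟩
  have hfa : ∀ z ∈ HP σ ρ, z ∉ B → AnalyticAt ℂ f z ∧ f z ≠ 0 ∧ f z ≠ 1 ∧ f z ≠ L z := fun z hz hzB =>
    ⟨(hf.2.1 z hz hzB).1, (hf.2.1 z hz hzB).2.1, (hf.2.1 z hz hzB).2.2.1, (hf.2.1 z hz hzB).2.2.2 L hL⟩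
  have hga : ∀ z ∈ HP σ ρ, z ∉ B → AnalyticAt ℂ g z ∧ g z ≠ 0 ∧ g z ≠ 1 ∧ g z ≠ L z := fun z hz hzB =>
    ⟨(hg.2.1 z hz hzB).1, (hg.2.1 z hz hzB).2.1, (hg.2.1 z hz hzB).2.2.1, (hg.2.1 z hz hzB).2.2.2 L hL⟩
  have hLL : ∀ z, z ∉ B → AnalyticAt ℂ L z ∧ L z ≠ 0 ∧ L z ≠ 1 := fun z hz => h.L_an L hL z hz
  have hfm : ∀ z ∈ HP σ ρ, MeromorphicAt f z := hf.1
  have hgm : ∀ z ∈ HP σ ρ, MeromorphicAt g z := hg.1
  have hLm : ∀ z, MeromorphicAt L z := h.L_mer L hL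
  set Q₁ : ℂ → ℂ := fun z => f z / g z with hQ₁
  set Q₂ : ℂ → ℂ := fun z => (g z - 1) * (f z - L z) / ((g z - L z) * (f z - 1)) with hQ₂
  set Q₃ : ℂ → ℂ := fun z => (g z - 1) * f z / (g z * (f z - 1)) with hQ₃
  set Q₄ : ℂ → ℂ := fun z => (f z - L z) / (g z - L z) with hQ₄
  have hQ₁a : ∀ z ∈ HP σ ρ, z ∉ B → AnalyticAt ℂ Q₁ z ∧ Q₁ z ≠ 0 := fun z hz hzB =>
    ⟨(hfa z hz hzB).1.div (hga z hz hzB).1 (hga z hz hzB).2.1, div_ne_zero (hfa z hz hzB).2.1 (hga z hz hzB).2.1⟩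
  have hne : ∀ z ∈ HP σ ρ, z ∉ B → (g z - 1 ≠ 0 ∧ f z - L z ≠ 0) ∧ (g z - L z ≠ 0 ∧ f z - 1 ≠ 0) := fun z hz hzB =>
    ⟨⟨sub_ne_zero.2 (hga z hz hzB).2.2.1, sub_ne_zero.2 (hfa z hz hzB).2.2.2⟩,
      sub_ne_zero.2 (hga z hz hzB).2.2.2, sub_ne_zero.2 (hfa z hz hzB).2.2.1⟩
  have hQ₂a : ∀ z ∈ HP σ ρ, z ∉ B → AnalyticAt ℂ Q₂ z ∧ Q₂ z ≠ 0 := by
    intro z hz hzB
    obtain ⟨⟨h1, h2⟩, h3, h4⟩ := hne z hz hzB
    refine ⟨AnalyticAt.div ?_ ?_ (mul_ne_zero h3 h4), div_ne_zero (mul_ne_zero h1 h2) (mul_ne_zero h3 h4)⟩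
    · exact ((hga z hz hzB).1.sub analyticAt_const).mul ((hfa z hz hzB).1.sub (hLL z hzB).1)
    · exact ((hga z hz hzB).1.sub (hLL z hzB).1).mul ((hfa z hz hzB).1.sub analyticAt_const)
  have hQ₃a : ∀ z ∈ HP σ ρ, z ∉ B → AnalyticAt ℂ Q₃ z ∧ Q₃ z ≠ 0 := by
    intro z hz hzB
    obtain ⟨⟨h1, h2⟩, h3, h4⟩ := hne z hz hzB
    have h5 := (hfa z hz hzB).2.1
    have h6 := (hga z hz hzB).2.1
    refine ⟨AnalyticAt.div ?_ ?_ (mul_ne_zero h6 h4), div_ne_zero (mul_ne_zero h1 h5) (mul_ne_zero h6 h4)⟩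
    · exact ((hga z hz hzB).1.sub analyticAt_const).mul (hfa z hz hzB).1
    · exact (hga z hz hzB).1.mul ((hfa z hz hzB).1.sub analyticAt_const)
  have hQ₄a : ∀ z ∈ HP σ ρ, z ∉ B → AnalyticAt ℂ Q₄ z ∧ Q₄ z ≠ 0 := by
    intro z hz hzB
    obtain ⟨⟨h1, h2⟩, h3, h4⟩ := hne z hz hzB
    exact ⟨AnalyticAt.div ((hfa z hz hzB).1.sub (hLL z hzB).1) ((hga z hz hzB).1.sub (hLL z hzB).1) h3, div_ne_zero h2 h3⟩
  have hQ₁m : ∀ z ∈ HP σ ρ, MeromorphicAt Q₁ z := fun z hz => (hfm z hz).div (hgm z hz)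
  have hQ₂m : ∀ z ∈ HP σ ρ, MeromorphicAt Q₂ z := fun z hz =>
    (((hgm z hz).sub (MeromorphicAt.const 1 z)).mul ((hfm z hz).sub (hLm z))).div
      (((hgm z hz).sub (hLm z)).mul ((hfm z hz).sub (MeromorphicAt.const 1 z)))
  have hQ₃m : ∀ z ∈ HP σ ρ, MeromorphicAt Q₃ z := fun z hz =>
    (((hgm z hz).sub (MeromorphicAt.const 1 z)).mul (hfm z hz)).div ((hgm z hz).mul ((hfm z hz).sub (MeromorphicAt.const 1 z)))
  have hQ₄m : ∀ z ∈ HP σ ρ, MeromorphicAt Q₄ z := fun z hz => ((hfm z hz).sub (hLm z)).div ((hgm z hz).sub (hLm z))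
  -- near `1` in the strip
  have hsmall : ∀ z ∈ HP σ ρ, z ∈ Gd B δ → |z.re| ≤ W → ‖Q₁ z - 1‖ ≤ 1 / 2 ∧ ‖Q₂ z - 1‖ ≤ 1 / 2 ∧ ‖Q₃ z - 1‖ ≤ 1 / 2 ∧ ‖Q₄ z - 1‖ ≤ 1 / 2 := by
    intro z hz hzG hzW
    have hzB : z ∉ B := gd_notMem hδ hzG
    obtain ⟨⟨h1, h2⟩, h3, h4⟩ := hne z hz hzB
    have h5 := (hfa z hz hzB).2.1
    have h6 := (hga z hz hzB).2.1
    obtain ⟨a1, a2, a3, a4, a5, a6, a7, a8, a9⟩ := hfg z hz hzG hzW
    have a10 : ‖L z - 1‖ ≤ K + 1 := (norm_sub_le _ _).trans (by rw [norm_one]; linarith [hK z hzG hzW])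
    have e1 : Q₁ z - 1 = (f z - g z) / g z := by
      simp only [hQ₁]
      field_simp
    have e2 : Q₂ z - 1 = (f z - g z) * (L z - 1) / ((g z - L z) * (f z - 1)) := by
      simp only [hQ₂]
      rw [div_sub_one (mul_ne_zero h3 h4)]
      congr 1
      ring
    have e3 : Q₃ z - 1 = -(f z - g z) / (g z * (f z - 1)) := by
      simp only [hQ₃]
      rw [div_sub_one (mul_ne_zero h6 h4)]
      congr 1
      ring
    have e4 : Q₄ z - 1 = (f z - g z) / (g z - L z) := by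
      simp only [hQ₄]
      rw [div_sub_one h3]
      congr 1
      ring
    have hn1 : 0 < ‖g z‖ := norm_pos_iff.2 h6
    have hn2 : 0 < ‖g z - L z‖ := norm_pos_iff.2 h3
    have hn3 : 0 < ‖f z - 1‖ := norm_pos_iff.2 h4
    have hc2 : c ^ 2 ≤ ‖g z - L z‖ * ‖f z - 1‖ := by
      rw [pow_two]
      exact mul_le_mul a8 a3 hc.le hn2.le
    have hc3 : c ^ 2 ≤ ‖g z‖ * ‖f z - 1‖ := by
      rw [pow_two]
      exact mul_le_mul a5 a3 hc.le hn1.le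
    refine ⟨?_, ?_, ?_, ?_⟩
    · rw [e1, norm_div, div_le_iff₀ hn1]
      linarith
    · rw [e2, norm_div, norm_mul, norm_mul, div_le_iff₀ (mul_pos hn2 hn3)]
      have h7 : ‖f z - g z‖ * ‖L z - 1‖ ≤ ε * (K + 1) := mul_le_mul a9 a10 (norm_nonneg _) hε0.le
      linarith
    · rw [e3, norm_div, norm_neg, norm_mul, div_le_iff₀ (mul_pos hn1 hn3)]
      have h7 : ε ≤ ε * (K + 1) := le_mul_of_one_le_right hε0.le (by linarith)
      linarith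
    · rw [e4, norm_div, div_le_iff₀ hn2]
      linarith
  -- growth
  set ρ₁ : ℝ := ρ + 3 with hρ₁
  have hend : ∀ z ∈ HP σ ρ₁, W < |z.re| → z ∈ HP σ ρ ∧ z ∉ B := by
    intro z hz hzW
    refine ⟨HP_anti (by rw [hρ₁]; linarith) hz, fun hzB => ?_⟩
    have := h.B_re z hzB
    linarith
  obtain ⟨M₁, hM₁, b₁⟩ := end_growth h hσ (X := f) (M₀ := 1 / c)
    (fun z hz hzB => ⟨(hfa z hz hzB).1, (hfa z hz hzB).2.1, (hfa z hz hzB).2.2.1⟩)
    (fun z hz hzG hzW => (hfg z hz hzG hzW).2.1)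
  obtain ⟨M₂, hM₂, b₂⟩ := end_growth h hσ (X := fun z => (g z)⁻¹) (M₀ := c⁻¹)
    (fun z hz hzB => ⟨(hga z hz hzB).1.inv (hga z hz hzB).2.1, (inv_omit (hga z hz hzB).2.1 (hga z hz hzB).2.2.1).1,
      (inv_omit (hga z hz hzB).2.1 (hga z hz hzB).2.2.1).2⟩)
    (fun z hz hzG hzW => by
      rw [norm_inv]
      exact inv_anti₀ hc (hfg z hz hzG hzW).2.2.2.2.1)
  obtain ⟨M₃, hM₃, b₃⟩ := end_growth h hσ (X := fun z => 1 - g z) (M₀ := 1 + 1 / c)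
    (fun z hz hzB => ⟨analyticAt_const.sub (hga z hz hzB).1, (one_sub_omit (hga z hz hzB).2.1 (hga z hz hzB).2.2.1).1,
      (one_sub_omit (hga z hz hzB).2.1 (hga z hz hzB).2.2.1).2⟩)
    (fun z hz hzG hzW => (norm_sub_le _ _).trans (by
      rw [norm_one]
      linarith [(hfg z hz hzG hzW).2.2.2.2.2.1]))
  obtain ⟨M₄, hM₄, b₄⟩ := end_growth h hσ (X := fun z => (1 - f z)⁻¹) (M₀ := c⁻¹)
    (fun z hz hzB => by
      have h1 := one_sub_omit (hfa z hz hzB).2.1 (hfa z hz hzB).2.2.1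
      exact ⟨(analyticAt_const.sub (hfa z hz hzB).1).inv h1.1, (inv_omit h1.1 h1.2).1, (inv_omit h1.1 h1.2).2⟩)
    (fun z hz hzG hzW => by
      rw [norm_inv]
      refine inv_anti₀ hc ?_
      rw [norm_sub_rev]
      exact (hfg z hz hzG hzW).2.2.1)
  have hfL : ∀ z ∈ HP σ ρ, z ∉ B → L z / f z ≠ 0 ∧ L z / f z ≠ 1 := fun z hz hzB =>
    ⟨div_ne_zero (hLL z hzB).2.1 (hfa z hz hzB).2.1, fun h1 => (hfa z hz hzB).2.2.2 ((div_eq_one_iff_eq (hfa z hz hzB).2.1).1 h1).symm⟩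
  have hgL : ∀ z ∈ HP σ ρ, z ∉ B → L z / g z ≠ 0 ∧ L z / g z ≠ 1 := fun z hz hzB =>
    ⟨div_ne_zero (hLL z hzB).2.1 (hga z hz hzB).2.1, fun h1 => (hga z hz hzB).2.2.2 ((div_eq_one_iff_eq (hga z hz hzB).2.1).1 h1).symm⟩
  obtain ⟨M₅, hM₅, b₅⟩ := end_growth h hσ (X := fun z => 1 - L z / f z) (M₀ := 1 + K / c)
    (fun z hz hzB => ⟨analyticAt_const.sub ((hLL z hzB).1.div (hfa z hz hzB).1 (hfa z hz hzB).2.1),
      (one_sub_omit (hfL z hz hzB).1 (hfL z hz hzB).2).1, (one_sub_omit (hfL z hz hzB).1 (hfL z hz hzB).2).2⟩)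
    (fun z hz hzG hzW => (norm_sub_le _ _).trans (by
      rw [norm_one, norm_div]
      have h1 := hK z hzG hzW
      have h2 := (hfg z hz hzG hzW).1
      have h3 : ‖L z‖ / ‖f z‖ ≤ K / c := div_le_div₀ hK0 h1 hc h2
      linarith))
  obtain ⟨M₆, hM₆, b₆⟩ := end_growth h hσ (X := fun z => (1 - L z / g z)⁻¹) (M₀ := 1 / c / c)
    (fun z hz hzB => by
      have h1 := one_sub_omit (hgL z hz hzB).1 (hgL z hz hzB).2
      exact ⟨(analyticAt_const.sub ((hLL z hzB).1.div (hga z hz hzB).1 (hga z hz hzB).2.1)).inv h1.1, (inv_omit h1.1 h1.2).1, (inv_omit h1.1 h1.2).2⟩)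
    (fun z hz hzG hzW => by
      have hzB : z ∉ B := gd_notMem hδ hzG
      have h1 : (1 - L z / g z)⁻¹ = g z / (g z - L z) := by
        have h2 := (hga z hz hzB).2.1
        have h3 := (hne z hz hzB).2.1
        rw [one_sub_div h2, inv_div]
      rw [h1, norm_div]
      exact div_le_div₀ (by positivity) (hfg z hz hzG hzW).2.2.2.2.2.1 hc (hfg z hz hzG hzW).2.2.2.2.2.2.2.1)
  have hg₁ : ∀ z ∈ HP σ ρ₁, W < |z.re| → Real.log ‖Q₁ z‖ ≤ (M₁ + M₂) * (1 + ‖z‖) ^ 8 := by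
    intro z hz hzW
    obtain ⟨hzρ, hzB⟩ := hend z hz hzW
    have h5 := (hfa z hzρ hzB).2.1
    have h6 := (hga z hzρ hzB).2.1
    have e : ‖Q₁ z‖ = ‖f z‖ * ‖(g z)⁻¹‖ := by
      simp only [hQ₁]
      rw [div_eq_mul_inv, norm_mul]
    rw [e, Real.log_mul (norm_ne_zero_iff.2 h5) (norm_ne_zero_iff.2 (inv_ne_zero h6)), add_mul]
    exact add_le_add (b₁ z hz hzW) (b₂ z hz hzW)
  have hg₂ : ∀ z ∈ HP σ ρ₁, W < |z.re| → Real.log ‖Q₂ z‖ ≤ (M₃ + M₁ + M₅ + M₂ + M₆ + M₄) * (1 + ‖z‖) ^ 8 := by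
    intro z hz hzW
    obtain ⟨hzρ, hzB⟩ := hend z hz hzW
    obtain ⟨⟨h1, h2⟩, h3, h4⟩ := hne z hzρ hzB
    have h5 := (hfa z hzρ hzB).2.1
    have h6 := (hga z hzρ hzB).2.1
    have h7 := (one_sub_omit (hga z hzρ hzB).2.1 (hga z hzρ hzB).2.2.1).1
    have h8 := (one_sub_omit (hfa z hzρ hzB).2.1 (hfa z hzρ hzB).2.2.1).1
    have h9 := (one_sub_omit (hfL z hzρ hzB).1 (hfL z hzρ hzB).2).1
    have h10 := (one_sub_omit (hgL z hzρ hzB).1 (hgL z hzρ hzB).2).1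
    have e : Q₂ z = (1 - g z) * f z * (1 - L z / f z) * (g z)⁻¹ * (1 - L z / g z)⁻¹ * (1 - f z)⁻¹ := by
      simp only [hQ₂]
      rw [one_sub_div h5, one_sub_div h6, inv_div]
      have h4' : 1 - f z ≠ 0 := h8
      field_simp
      ring
    have q1 := norm_ne_zero_iff.2 h7
    have q2 := norm_ne_zero_iff.2 h5
    have q3 := norm_ne_zero_iff.2 h9
    have q4 := norm_ne_zero_iff.2 (inv_ne_zero h6)
    have q5 := norm_ne_zero_iff.2 (inv_ne_zero h10)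
    have q6 := norm_ne_zero_iff.2 (inv_ne_zero h8)
    rw [e, norm_mul, norm_mul, norm_mul, norm_mul, norm_mul,
      Real.log_mul (mul_ne_zero (mul_ne_zero (mul_ne_zero (mul_ne_zero q1 q2) q3) q4) q5) q6,
      Real.log_mul (mul_ne_zero (mul_ne_zero (mul_ne_zero q1 q2) q3) q4) q5, Real.log_mul (mul_ne_zero (mul_ne_zero q1 q2) q3) q4,
      Real.log_mul (mul_ne_zero q1 q2) q3, Real.log_mul q1 q2]
    have k1 := b₁ z hz hzW
    have k2 := b₂ z hz hzW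
    have k3 := b₃ z hz hzW
    have k4 := b₄ z hz hzW
    have k5 := b₅ z hz hzW
    have k6 := b₆ z hz hzW
    linarith
  have hanti : HP σ ρ₁ ⊆ HP σ ρ := HP_anti (by rw [hρ₁]; linarith)
  obtain ⟨J₁, r₁, N₁, k₁, hr₁, hN₁, hJ₁d, hJ₁e, hJ₁s, hJ₁g⟩ := log_fn h hσ (fun z hz => hQ₁m z (hanti hz)) (fun z hz hzB => hQ₁a z (hanti hz) hzB)
    (fun z hz hzG hzW => (hsmall z (hanti hz) hzG hzW).1) (by positivity) hg₁
  obtain ⟨J₂, r₂, N₂, k₂, hr₂, hN₂, hJ₂d, hJ₂e, hJ₂s, hJ₂g⟩ := log_fn h hσ (fun z hz => hQ₂m z (hanti hz)) (fun z hz hzB => hQ₂a z (hanti hz) hzB)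
    (fun z hz hzG hzW => (hsmall z (hanti hz) hzG hzW).2.1) (by positivity) hg₂
  set r : ℝ := max r₁ r₂ with hr
  have hrr₁ : r₁ ≤ r := le_max_left _ _
  have hrr₂ : r₂ ≤ r := le_max_right _ _
  set ρ' : ℝ := r + 4 * δ with hρ'
  have hρr : ρ ≤ r := by linarith
  have hs₁ : HP σ ρ' ⊆ HP σ r₁ := HP_anti (by rw [hρ']; linarith)
  have hs₂ : HP σ ρ' ⊆ HP σ r₂ := HP_anti (by rw [hρ']; linarith)
  have hs₃ : HP σ ρ' ⊆ HP σ ρ := HP_anti (by rw [hρ']; linarith)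
  -- zeros
  have hzero : ∀ l : ℤ, b₀ + p * l * Complex.I ∈ HP σ ρ' → J₁ (b₀ + p * l * Complex.I) * J₂ (b₀ + p * l * Complex.I) = 0 := by
    intro l hbl
    have hLt := L_one h hL hLa hL1 l
    have hbB : b₀ + p * l * Complex.I ∈ B := h.B_inv b₀ hb₀ l
    set b : ℂ := b₀ + p * l * Complex.I with hb
    have hsub : ball b (4 * δ) ⊆ HP σ r := HP_ball hσ hbl
    have hsubρ : ball b (4 * δ) ⊆ HP σ ρ := hsub.trans (HP_anti hρr)
    have hbW : |b.re| ≤ W := h.re_le hbB (mem_ball_self (by positivity))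
    have hnear : ∀ Q : ℂ → ℂ, (∀ z ∈ HP σ ρ, z ∉ B → AnalyticAt ℂ Q z ∧ Q z ≠ 0) → (∀ z ∈ HP σ ρ, MeromorphicAt Q z) →
        (∀ z ∈ HP σ ρ, z ∈ Gd B δ → |z.re| ≤ W → ‖Q z - 1‖ ≤ 1 / 2) → ∀ z ∈ ball b (4 * δ), z ≠ b → ‖Q z - 1‖ ≤ 1 / 2 := by
      intro Q h1 h2 h3
      obtain ⟨H, -, hHQ, hH⟩ := hole hδ le_rfl (fun z hz hzb => h1 z (hsubρ hz) (h.notMem hbB hz hzb)) (h2 b (hsubρ (mem_ball_self (by positivity))))
        (fun z hz1 hz2 => by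
          have hz : z ∈ ball b (4 * δ) := by rwa [mem_ball, dist_eq_norm]
          exact h3 z (hsubρ hz) (h.mem_gd hbB hz hz1) (h.re_le hbB hz))
      intro z hz hzb
      rw [← hHQ z hz hzb]
      exact hH z hz
    have n3 := hnear Q₃ hQ₃a hQ₃m fun z hz hzG hzW => (hsmall z hz hzG hzW).2.2.1
    have n4 := hnear Q₄ hQ₄a hQ₄m fun z hz hzG hzW => (hsmall z hz hzG hzW).2.2.2
    have hbr₁ : b ∈ HP σ r₁ := hs₁ hbl
    have hbr₂ : b ∈ HP σ r₂ := hs₂ hbl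
    have hc₁ : ContinuousAt J₁ b := (hJ₁d.differentiableAt ((isOpen_HP σ r₁).mem_nhds hbr₁)).continuousAt
    have hc₂ : ContinuousAt J₂ b := (hJ₂d.differentiableAt ((isOpen_HP σ r₂).mem_nhds hbr₂)).continuousAt
    have hcont : ContinuousAt (fun z => (Complex.exp (J₁ z) - 1) * (Complex.exp (J₂ z) - 1)) b :=
      (hc₁.cexp.sub continuousAt_const).mul (hc₂.cexp.sub continuousAt_const)
    have ht1 : Tendsto (fun z => (Complex.exp (J₁ z) - 1) * (Complex.exp (J₂ z) - 1)) (𝓝[≠] b)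
        (𝓝 ((Complex.exp (J₁ b) - 1) * (Complex.exp (J₂ b) - 1))) := hcont.tendsto.mono_left nhdsWithin_le_nhds
    have ht2 : Tendsto (fun z => (Complex.exp (J₁ z) - 1) * (Complex.exp (J₂ z) - 1)) (𝓝[≠] b) (𝓝 0) := by
      have ht3 : Tendsto (fun z => ‖1 - L z‖ * (1 / 2 * (1 / 2))) (𝓝[≠] b) (𝓝 0) := by
        have := (hLt.norm.mul_const (1 / 2 * (1 / 2) : ℝ)).mono_left (nhdsWithin_le_nhds (s := {b}ᶜ))
        simpa using this
      refine squeeze_zero_norm' ?_ ht3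
      rw [eventually_nhdsWithin_iff]
      filter_upwards [ball_mem_nhds b (show 0 < 4 * δ by positivity)] with z hz hzb
      have hzb' : z ≠ b := hzb
      have hzB : z ∉ B := h.notMem hbB hz hzb'
      have hzρ := hsubρ hz
      obtain ⟨⟨h1, h2⟩, h3, h4⟩ := hne z hzρ hzB
      have h6 := (hga z hzρ hzB).2.1
      rw [hJ₁e z (HP_anti hrr₁ (hsub hz)) hzB, hJ₂e z (HP_anti hrr₂ (hsub hz)) hzB]
      have e : (Q₁ z - 1) * (Q₂ z - 1) = (1 - L z) * ((Q₃ z - 1) * (Q₄ z - 1)) := by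
        simp only [hQ₁, hQ₂, hQ₃, hQ₄]
        field_simp
        ring
      rw [e, norm_mul, norm_mul]
      exact mul_le_mul_of_nonneg_left (mul_le_mul (n3 z hz hzb') (n4 z hz hzb') (norm_nonneg _) (by norm_num)) (norm_nonneg _)
    have h0 := tendsto_nhds_unique ht1 ht2
    rcases mul_eq_zero.1 h0 with h1 | h1
    · rw [exp_small (sub_eq_zero.1 h1) (by linarith [hJ₁s b hbr₁ hbW]), zero_mul]
    · rw [exp_small (sub_eq_zero.1 h1) (by linarith [hJ₂s b hbr₂ hbW]), mul_zero]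
  have hall := zero_hp (J := fun z => J₁ z * J₂ z) (a := b₀) (M := N₁ * N₂) (k := k₁ + k₂) (ρ := ρ') hσ hp ((hJ₁d.mono hs₁).mul (hJ₂d.mono hs₂)) (by positivity)
    (fun z hz => by
      have h1 := hJ₁g z (hs₁ hz)
      have h2 := hJ₂g z (hs₂ hz)
      have h3 := mul_le_mul h1 h2 (norm_nonneg _) (by positivity)
      rw [norm_mul]
      refine h3.trans (le_of_eq ?_)
      rw [pow_add]
      ring) hzero
  refine ⟨ρ', by rw [hρ']; linarith, fun z hz hzB => ?_⟩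
  have hzρ := hs₃ hz
  obtain ⟨⟨h1, h2⟩, h3, h4⟩ := hne z hzρ hzB
  have h6 := (hga z hzρ hzB).2.1
  rcases mul_eq_zero.1 (hall z hz) with h7 | h7
  · have h8 := hJ₁e z (hs₁ hz) hzB
    rw [h7, Complex.exp_zero] at h8
    exact (div_eq_one_iff_eq h6).1 h8.symm
  · have h8 := hJ₂e z (hs₂ hz) hzB
    rw [h7, Complex.exp_zero] at h8
    have h9 := (div_eq_one_iff_eq (mul_ne_zero h3 h4)).1 h8.symm
    have h10 : (f z - g z) * (L z - 1) = 0 := by linear_combination h9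
    rcases mul_eq_zero.1 h10 with h11 | h11
    · exact sub_eq_zero.1 h11
    · exact absurd (sub_eq_zero.1 h11) (hLL z hzB).2.2

end Pool.Agent.H62.LR
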